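import Pool.Agent.K3h75.NW.StmN
import Pool.Agent.K3h99.ND.SMP

/-! NW brick SMPW for helper75 (MP_6a3dac_ag): smooth coverings modulo all prime numbers -/

set_option autoImplicit false

namespace Pool.Agent.K3h68.NW

open MvPolynomial Pool.Agent.R187.WC Pool.Agent.K3h75.NW
open Pool.Agent.K3h99.ND (PF QF PF_d QF_d QF_e eq_j big PF_map QF_map PF_hom QF_hom)

theorem wform_coeff {N e m : ℕ} (he : 1 ≤ e) (P : MvPolynomial (Option (Fin (N + 1))) ℤ)
    (hP : P.IsWeightedHomogeneous (wt e) (m * e)) (h1 : coeff (Finsupp.single none m) P = 1)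
    (k : Type) [Field k] :
    wform (fun s : CoefW N e m => ((coeff s.1 P : ℤ) : k)) = map (Int.castRingHom k) P := by
  classical
  ext n
  rw [coeff_map, wform, coeff_add, coeff_sum, coeff_X_pow]
  by_cases hn : Finsupp.weight (wt e) n = m * e
  · by_cases hm : n none < m
    · rw [if_neg, zero_add]
      · refine (Finset.sum_eq_single (⟨n, hn, hm⟩ : CoefW N e m) ?_ ?_).trans ?_
        · intro s _ hs
          refine (coeff_monomial _ _ _).trans (if_neg ?_)
          intro h
          exact hs (Subtype.ext h)
        · intro h
          exact absurd (@Finset.mem_univ (CoefW N e m) _ ⟨n, hn, hm⟩) h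
        · exact (coeff_monomial _ _ _).trans (if_pos rfl)
      · intro h
        rw [← h] at hm
        simp at hm
    · have hw := hn
      rw [weight_eq] at hw
      push Not at hm
      have h2 : m * e ≤ n none * e := Nat.mul_le_mul_right e hm
      have h3 : ∑ j, n (some j) = 0 := by omega
      have h4 : n none * e = m * e := by omega
      have h5 : n none = m := Nat.eq_of_mul_eq_mul_right (by omega) h4
      have h6 : n = Finsupp.single none m := by
        ext o
        rcases o with _ | j
        · simp [h5]
        · have : n (some j) = 0 := (Finset.sum_eq_zero_iff.1 h3) j (Finset.mem_univ _)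
          simp [this]
      rw [if_pos h6.symm, Finset.sum_eq_zero, add_zero, h6, h1]
      · simp
      · intro s _
        refine (coeff_monomial _ _ _).trans (if_neg ?_)
        intro h
        have h7 := s.2.2
        rw [h, h5] at h7
        exact lt_irrefl _ h7
  · rw [hP.coeff_eq_zero n hn, map_zero, if_neg, Finset.sum_eq_zero, add_zero]
    · intro s _
      refine (coeff_monomial _ _ _).trans (if_neg ?_)
      intro h
      exact hn (h ▸ s.2.1)
    · intro h
      apply hn
      rw [← h, weight_eq]
      simp

theorem rename_wh {N e d : ℕ} (F : MvPolynomial (Fin (N + 1)) ℤ) (hF : F.IsHomogeneous d) :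
    (rename some F : MvPolynomial (Option (Fin (N + 1))) ℤ).IsWeightedHomogeneous (wt e) d := by
  intro s hs
  obtain ⟨u, hu, hc⟩ := coeff_rename_ne_zero some F s hs
  have h0 : (Finsupp.mapDomain some u) (none : Option (Fin (N + 1))) = 0 :=
    Finsupp.mapDomain_of_notMem_range _ _ (by simp)
  have h1 : ∀ j, (Finsupp.mapDomain some u) (some j) = u j := fun j =>
    Finsupp.mapDomain_apply (Option.some_injective _) _ _
  have h2 := hF hc
  rw [← hu, weight_eq, h0, zero_mul, zero_add]
  simp only [h1]
  rw [← h2, Finsupp.weight_apply, Finsupp.sum_fintype _ _ (by simp)]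
  simp

theorem rename_co {N m : ℕ} (hm : 2 ≤ m) (F : MvPolynomial (Fin (N + 1)) ℤ) :
    coeff (Finsupp.single none m) (rename some F : MvPolynomial (Option (Fin (N + 1))) ℤ) = 0 := by
  refine coeff_rename_eq_zero _ _ _ fun u hu => ?_
  exfalso
  have h0 : (Finsupp.mapDomain some u) (none : Option (Fin (N + 1))) = 0 :=
    Finsupp.mapDomain_of_notMem_range _ _ (by simp)
  rw [hu] at h0
  simp at h0
  omega

theorem pd_none {N : ℕ} {k : Type} [Field k] (F : MvPolynomial (Fin (N + 1)) k) :
    pderiv none (rename some F : MvPolynomial (Option (Fin (N + 1))) k) = 0 := by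
  classical
  apply pderiv_eq_zero_of_notMem_vars
  intro h
  have := vars_rename some F h
  simp at this

theorem eval_ren {N : ℕ} {k : Type} [Field k] (F : MvPolynomial (Fin (N + 1)) k)
    (x : Option (Fin (N + 1)) → k) : eval x (rename some F) = eval (fun i => x (some i)) F := by
  rw [eval_rename]
  rfl

/-- smooth forms of degree at least three -/
theorem smoothF {N d : ℕ} (hd : 3 ≤ d) (p : ℕ) : ∃ F : MvPolynomial (Fin (N + 1)) ℤ,
    F.IsHomogeneous d ∧ ∀ (k : Type) [Field k] [CharP k p] (x : Fin (N + 1) → k),
      eval x (map (Int.castRingHom k) F) = 0 →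
      (∀ j, eval x (pderiv j (map (Int.castRingHom k) F)) = 0) → x = 0 := by
  by_cases hpd : p ∣ d
  · refine ⟨QF N d ℤ, QF_hom N d (by omega), fun k _ _ x h0 h => ?_⟩
    rw [QF_map] at h0 h
    exact big (by omega) ((CharP.cast_eq_zero_iff k p d).2 hpd) x h0 h
  · refine ⟨PF N d ℤ, PF_hom N d, fun k _ _ x _ h => ?_⟩
    rw [PF_map] at h
    have hdk : (d : k) ≠ 0 := fun e => hpd ((CharP.cast_eq_zero_iff k p d).1 e)
    funext j
    have h1 := h j
    rw [PF_d] at h1
    rcases mul_eq_zero.1 h1 with h2 | h2
    · exact absurd h2 hdk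
    · exact pow_eq_zero_iff (by omega) |>.1 h2

theorem key {N d : ℕ} (hd2 : 2 < d) {k : Type} [Field k] (hd : (d : k) = 0) (x : Fin (N + 1) → k)
    (h0 : x 0 = 0) (h : ∀ j, eval x (pderiv j (QF N d k)) = 0) : x = 0 := by
  have key : ∀ n (hn : n < N), x (⟨n, hn⟩ : Fin N).succ = 0 := by
    intro n
    induction n using Nat.strong_induction_on with
    | _ n ih =>
      intro hn
      have h1 := eq_j hd x h ⟨n, hn⟩
      rw [Finset.sum_eq_zero, add_zero] at h1
      · exact pow_eq_zero_iff (by omega) |>.1 h1
      · intro i _
        by_cases e : i.succ = (⟨n, hn⟩ : Fin N).castSucc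
        · rw [if_pos e]
          have e1 : i.1 + 1 = n := by
            have := congrArg Fin.val e
            simpa using this
          have e2 := ih i.1 (by omega) i.2
          have e3 : (⟨i.1, i.2⟩ : Fin N) = i := rfl
          rw [e3] at e2
          rw [e2, zero_pow (by omega), mul_zero]
        · rw [if_neg e]
  funext j
  refine Fin.cases h0 (fun i => ?_) j
  exact key i.1 i.2

theorem t_SMPW : S_SMPW := by
  classical
  intro N e m hN he hm hme p hp
  by_cases hpm : p ∣ m
  · -- `w ^ m + w x_0 ^ ((m - 1) e) + Q (x)`
    set P : MvPolynomial (Option (Fin (N + 1))) ℤ :=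
      X none ^ m + X none * X (some 0) ^ ((m - 1) * e) + rename some (QF N (m * e) ℤ) with hPdef
    have hme2 : 2 ≤ (m - 1) * e := by
      rcases Nat.lt_or_ge 2 m with h | h
      · calc 2 ≤ (m - 1) * 1 := by omega
          _ ≤ (m - 1) * e := Nat.mul_le_mul_left _ he
      · have : m = 2 := by omega
        subst this
        omega
    have hP : P.IsWeightedHomogeneous (wt e) (m * e) := by
      refine IsWeightedHomogeneous.add (IsWeightedHomogeneous.add ?_ ?_)
        (rename_wh _ (QF_hom N _ (by omega)))
      · have := (isWeightedHomogeneous_X ℤ (wt (ι := Fin (N + 1)) e) none).pow m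
        simpa [wt_none] using this
      · have h1 := (isWeightedHomogeneous_X ℤ (wt (ι := Fin (N + 1)) e) none).mul
          ((isWeightedHomogeneous_X ℤ (wt (ι := Fin (N + 1)) e) (some 0)).pow ((m - 1) * e))
        have h2 : wt (ι := Fin (N + 1)) e none + ((m - 1) * e) • wt (ι := Fin (N + 1)) e (some 0) =
            m * e := by
          rw [wt_none, wt_some, smul_eq_mul, mul_one]
          obtain ⟨m', rfl⟩ : ∃ m', m = m' + 1 := ⟨m - 1, by omega⟩
          simp only [Nat.add_sub_cancel]
          ring
        rwa [h2] at h1
    have hc : coeff (Finsupp.single none m) P = 1 := by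
      rw [hPdef, coeff_add, coeff_add, rename_co hm, add_zero, coeff_X_pow, if_pos rfl]
      have : coeff (Finsupp.single none m) (X none * X (some 0) ^ ((m - 1) * e) :
          MvPolynomial (Option (Fin (N + 1))) ℤ) = 0 := by
        rw [X, X_pow_eq_monomial, monomial_mul, coeff_monomial, if_neg]
        intro h
        have := DFunLike.congr_fun h (some 0)
        simp at this
        omega
      rw [this, add_zero]
    refine ⟨fun s => coeff s.1 P, ?_⟩
    intro k _ _ x h0 h
    have hmap := wform_coeff he P hP hc k
    have hPm : map (Int.castRingHom k) P =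
        X none ^ m + X none * X (some 0) ^ ((m - 1) * e) + rename some (QF N (m * e) k) := by
      rw [hPdef]
      simp only [map_add, map_mul, map_pow, map_X, map_rename, QF_map]
    rw [hPm] at hmap
    rw [hmap] at h0 h
    have hmk : (m : k) = 0 := (CharP.cast_eq_zero_iff k p m).2 hpm
    have hdk : ((m * e : ℕ) : k) = 0 := by
      rw [Nat.cast_mul, hmk, zero_mul]
    have hx0 : x (some 0) = 0 := by
      have h1 := h none
      simp only [map_add, pd_none, pderiv_pow, pderiv_mul, pderiv_X_self,
        pderiv_X_of_ne (show (some (0 : Fin (N + 1))) ≠ none by simp), map_mul, map_natCast, hmk,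
        zero_mul, map_zero, add_zero, zero_add, mul_zero, map_one, one_mul, map_pow, eval_X] at h1
      exact pow_eq_zero_iff (by omega) |>.1 h1
    have hQ : ∀ j, eval (fun i => x (some i)) (pderiv j (QF N (m * e) k)) = 0 := by
      intro j
      have h1 := h (some j)
      have h2 : ((0 : k)) ^ ((m - 1) * e - 1) = 0 := zero_pow (by omega)
      simp only [map_add, pderiv_rename (Option.some_injective _), eval_ren, pderiv_pow, pderiv_mul,
        pderiv_X_of_ne (show (none : Option (Fin (N + 1))) ≠ some j by simp), map_mul, map_zero,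
        mul_zero, zero_mul, zero_add, map_pow, eval_X, hx0, h2, map_natCast] at h1
      exact h1
    have hx : (fun i => x (some i)) = 0 := key (by omega) hdk _ hx0 hQ
    have hxn : x none = 0 := by
      rw [map_add, map_add, eval_ren, hx, QF_e] at h0
      have h2 : ((0 : k)) ^ ((m - 1) * e) = 0 := zero_pow (by omega)
      have h3 : ((0 : k)) ^ (m * e) = 0 := zero_pow (by omega)
      simp only [map_mul, map_pow, eval_X, hx0, h2, mul_zero, add_zero, Pi.zero_apply, h3, zero_mul,
        Finset.sum_const_zero] at h0
      exact pow_eq_zero_iff (by omega) |>.1 h0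
    funext o
    rcases o with _ | i
    · exact hxn
    · exact congrFun hx i
  · -- `w ^ m + F (x)`
    obtain ⟨F, hF, hFs⟩ := smoothF (N := N) hme p
    set P : MvPolynomial (Option (Fin (N + 1))) ℤ := X none ^ m + rename some F with hPdef
    have hP : P.IsWeightedHomogeneous (wt e) (m * e) := by
      refine IsWeightedHomogeneous.add ?_ (rename_wh _ hF)
      have := (isWeightedHomogeneous_X ℤ (wt (ι := Fin (N + 1)) e) none).pow m
      simpa [wt_none] using this
    have hc : coeff (Finsupp.single none m) P = 1 := by
      rw [hPdef, coeff_add, rename_co hm, add_zero, coeff_X_pow, if_pos rfl]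
    refine ⟨fun s => coeff s.1 P, ?_⟩
    intro k _ _ x h0 h
    have hmap := wform_coeff he P hP hc k
    have hPm : map (Int.castRingHom k) P =
        X none ^ m + rename some (map (Int.castRingHom k) F) := by
      rw [hPdef]
      simp only [map_add, map_pow, map_X, map_rename]
    rw [hPm] at hmap
    rw [hmap] at h0 h
    have hmk : (m : k) ≠ 0 := fun e => hpm ((CharP.cast_eq_zero_iff k p m).1 e)
    have hxn : x none = 0 := by
      have h1 := h none
      rw [map_add, pd_none, pderiv_pow, pderiv_X_self] at h1
      simp [hmk] at h1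
      exact h1.1
    have hx : (fun i => x (some i)) = 0 := by
      refine hFs k _ ?_ fun j => ?_
      · rw [map_add, eval_ren, map_pow, eval_X, hxn, zero_pow (by omega), zero_add] at h0
        exact h0
      · have h1 := h (some j)
        rw [map_add, pderiv_rename (Option.some_injective _), map_add, eval_ren, pderiv_pow,
          pderiv_X_of_ne (show (none : Option (Fin (N + 1))) ≠ some j by simp), mul_zero, map_zero,
          zero_add] at h1
        exact h1
    funext o
    rcases o with _ | i
    · exact hxn
    · exact congrFun hx i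

end Pool.Agent.K3h68.NW
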